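import Mathlib
import Pool.Agent.Run7.h357.OmFinal

/-!
# MP_f476d2_lc: halting probabilities restricted to co-c.e. output sets

If `U` is universal by adjunction and `X` is a co-c.e. set of strings with `Ω_U[X] > 0`, then
`Ω_U[X]` is Martin-Löf random.
-/

set_option autoImplicit false

namespace Pool.Agent.Results.MP_f476d2_lc.CoCeRandom

open MeasureTheory

/-- A prefix-free machine: a partial computable function from binary strings to binary strings
whose domain is prefix-free (no string of the domain is a proper initial segment of another). -/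
def PFMachine (M : List Bool →. List Bool) : Prop :=
  Partrec M ∧ ∀ p q : List Bool, (M p).Dom → (M q).Dom → p <+: q → p = q

/-- `U` is a prefix-free machine that is universal by adjunction: there are an effective
enumeration `M 0, M 1, ...` of all the prefix-free machines and a computable prefix-free family of
codes `σ 0, σ 1, ...` such that `U (σ e ++ p) ≃ M e p` for all `e` and `p`. -/
def UniversalByAdjunction (U : List Bool →. List Bool) : Prop :=
  PFMachine U ∧ ∃ (M : ℕ → List Bool →. List Bool) (σ : ℕ → List Bool),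
    Partrec (fun x : ℕ × List Bool => M x.1 x.2) ∧
    (∀ e, PFMachine (M e)) ∧
    (∀ N : List Bool →. List Bool, PFMachine N → ∃ e, M e = N) ∧
    Computable σ ∧
    (∀ d e : ℕ, σ d <+: σ e → d = e) ∧
    ∀ (e : ℕ) (p : List Bool), U (σ e ++ p) = M e p

/-- `Ω_U[X]`, the sum of `2 ^ (-|p|)` over the strings `p` in the domain of `U` with `U p ∈ X`. -/
noncomputable def Omega (U : List Bool →. List Bool) (X : Set (List Bool)) : ℝ :=
  ∑' p : List Bool, Set.indicator {p | ∃ x ∈ X, x ∈ U p} (fun p => (1 / 2 : ℝ) ^ p.length) p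

/-- `X` is co-c.e.: its complement is computably enumerable. -/
def CoCe (X : Set (List Bool)) : Prop := REPred fun x : List Bool => x ∉ X

/-- The rational number `(a - b) / (d + 1)` coded by the triple `(a, b, d)` of natural numbers. -/
noncomputable def ratOf (t : ℕ × ℕ × ℕ) : ℝ := ((t.1 : ℝ) - (t.2.1 : ℝ)) / ((t.2.2 : ℝ) + 1)

/-- The open set of reals that is the union of the rational intervals with coded end points
in `S`. -/
def openOf (S : Set ((ℕ × ℕ × ℕ) × (ℕ × ℕ × ℕ))) : Set ℝ :=
  {y | ∃ t ∈ S, ratOf t.1 < y ∧ y < ratOf t.2}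

/-- A Martin-Löf test on the real line: a uniformly computably enumerable sequence of sets of
rational intervals, the `n`-th of which has a union of Lebesgue measure at most `2 ^ (-n)`. -/
def IsMLTest (V : ℕ → Set ((ℕ × ℕ × ℕ) × (ℕ × ℕ × ℕ))) : Prop :=
  REPred (fun x : ℕ × ((ℕ × ℕ × ℕ) × (ℕ × ℕ × ℕ)) => x.2 ∈ V x.1) ∧
    ∀ n, volume (openOf (V n)) ≤ ENNReal.ofReal ((1 / 2 : ℝ) ^ n)

/-- The real number `α` is Martin-Löf random: it passes every Martin-Löf test, i.e. it lies
outside some member of the test. -/
def MLRandomReal (α : ℝ) : Prop :=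
  ∀ V : ℕ → Set ((ℕ × ℕ × ℕ) × (ℕ × ℕ × ℕ)), IsMLTest V → ∃ n, α ∉ openOf (V n)

/-- **Main theorem.** If `U` is universal by adjunction, `X` is co-c.e. and `Ω_U[X] > 0`, then
`Ω_U[X]` is Martin-Löf random. -/
theorem result (U : List Bool →. List Bool) (hU : UniversalByAdjunction U)
    (X : Set (List Bool)) (hX : CoCe X) (hpos : 0 < Omega U X) :
    MLRandomReal (Omega U X) := by
  obtain ⟨hpf, M, σ, _, _, hall, _, _, hadj⟩ := hU
  refine Run7.h357.Om.randomness (U := U) hpf ?_ (X := X) hX hpos
  intro N hN
  obtain ⟨e, he⟩ := hall N hN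
  exact ⟨σ e, fun p => by rw [hadj e p, he]⟩

end Pool.Agent.Results.MP_f476d2_lc.CoCeRandom
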